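import Pool.Agent.N993.WU.Defs

/-! Project WU (helper993), task DIS (helper402): discharging, after N78/WT/DIS of helper78. -/

set_option autoImplicit false

namespace Pool.Agent.N402.WU

open Pool.Agent.N993.WU

section

variable {V J S : Type} {A : Dat V J S} (N : ND A)

/-- sides of type `up` -/
def IsUp : Side J S → Prop
  | .up _ _ _ => True
  | _ => False

/-- sides of type `dn` -/
def IsDn : Side J S → Prop
  | .dn _ _ _ => True
  | _ => False

/-- the types along the first word of a polygon -/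
theorem ty_uu {b : N.D} {j : J} {τ : Bool} (hb : N.ty b = .uu j τ 0) (i : ℕ) (hi : i < A.lu j) :
    N.ty ((N.nxt ^ i) b) = .uu j τ i := by
  induction i with
  | zero => exact hb
  | succ i ih =>
    rw [pow_succ', Equiv.Perm.mul_apply, N.ty_nxt, ih (by omega)]
    show (if i + 1 < A.lu j then Side.uu j τ (i + 1) else Side.up j τ 0) = _
    rw [if_pos hi]

/-- the dart after the first word of a polygon -/
def toUp (d : N.D) : N.D :=
  match N.ty d with
  | .uu j _ _ => (N.nxt ^ (A.lu j)) d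
  | _ => d

theorem toUp_ty (hG : A.Good) {b : N.D} {j : J} {τ : Bool} (hb : N.ty b = .uu j τ 0) :
    toUp N b = (N.nxt ^ (A.lu j)) b ∧ N.ty (toUp N b) = .up j τ 0 := by
  have h1 : toUp N b = (N.nxt ^ (A.lu j)) b := by
    unfold toUp
    rw [hb]
  refine ⟨h1, ?_⟩
  obtain ⟨m, hm⟩ : ∃ m, A.lu j = m + 1 := ⟨A.lu j - 1, by have := hG.lu_pos j; omega⟩
  rw [h1, hm, pow_succ', Equiv.Perm.mul_apply, N.ty_nxt, ty_uu N hb m (by omega)]
  show (if m + 1 < A.lu j then Side.uu j τ (m + 1) else Side.up j τ 0) = _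
  rw [if_neg (by omega)]

theorem base_ty {d : N.D} (h : IsBase (N.ty d)) : ∃ j τ, N.ty d = .uu j τ 0 := by
  cases hd : N.ty d with
  | uu j τ i =>
    rw [hd] at h
    have : i = 0 := h
    exact ⟨j, τ, by rw [this]⟩
  | up _ _ _ => rw [hd] at h; exact h.elim
  | vv _ _ _ _ => rw [hd] at h; exact h.elim
  | dn _ _ _ => rw [hd] at h; exact h.elim
  | st _ _ => rw [hd] at h; exact h.elim
  | lt _ _ _ => rw [hd] at h; exact h.elim

theorem up_of_base (hG : A.Good) (d : N.D) (h : IsBase (N.ty d)) : IsUp (N.ty (toUp N d)) := by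
  obtain ⟨j, τ, hj⟩ := base_ty N h
  rw [(toUp_ty N hG hj).2]
  trivial

theorem toUp_inj (hG : A.Good) {d d' : N.D} (h : IsBase (N.ty d)) (h' : IsBase (N.ty d'))
    (he : toUp N d = toUp N d') : d = d' := by
  obtain ⟨j, τ, hj⟩ := base_ty N h
  obtain ⟨j', τ', hj'⟩ := base_ty N h'
  have h1 := toUp_ty N hG hj
  have h2 := toUp_ty N hG hj'
  have h3 : j = j' := by
    have h4 := h1.2
    rw [he, h2.2] at h4
    injection h4 with h5
    exact h5.symm
  subst h3
  have h5 : (N.nxt ^ (A.lu j)) d = (N.nxt ^ (A.lu j)) d' := by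
    rw [← h1.1, ← h2.1, he]
  exact (N.nxt ^ (A.lu j)).injective h5

theorem dn_of_base (d : N.D) (h : IsBase (N.ty d)) : IsDn (N.ty (N.nxt.symm d)) := by
  obtain ⟨j, τ, hj⟩ := base_ty N h
  have h1 := N.ty_nxt (N.nxt.symm d)
  rw [Equiv.apply_symm_apply, hj] at h1
  cases hd : N.ty (N.nxt.symm d) with
  | uu j' τ' i =>
    rw [hd] at h1
    have h2 : Side.uu j τ 0 = if i + 1 < A.lu j' then Side.uu j' τ' (i + 1) else Side.up j' τ' 0 := h1
    split_ifs at h2
    injection h2 with _ _ h3
    omega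
  | up _ _ _ => rw [hd] at h1; exact absurd h1 (by simp [Dat.nx])
  | vv j' τ' k i =>
    rw [hd] at h1
    have h2 : Side.uu j τ 0 = if i + 1 < A.lv (A.kap j' τ' k) then Side.vv j' τ' k (i + 1)
      else Side.dn j' τ' k := h1
    split_ifs at h2
  | dn _ _ _ => trivial
  | st _ _ => rw [hd] at h1; exact absurd h1 (by simp [Dat.nx])
  | lt s τ' i =>
    rw [hd] at h1
    have h2 : Side.uu j τ 0 = if i + 1 < A.ℓ s then Side.lt s τ' (i + 1) else Side.st s τ' := h1
    split_ifs at h2

/-- the types along a roof -/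
theorem ty_roof {b : N.D} {s : S} {τ : Bool} (hb : N.ty b = .st s τ) (i : ℕ) (hi : i < A.ℓ s) :
    N.ty ((N.nxt ^ (1 + i)) b) = .lt s τ i := by
  induction i with
  | zero =>
    rw [add_zero, pow_one, N.ty_nxt, hb]
    rfl
  | succ i ih =>
    rw [show 1 + (i + 1) = (1 + i) + 1 by ring, pow_succ', Equiv.Perm.mul_apply, N.ty_nxt,
      ih (by omega)]
    show (if i + 1 < A.ℓ s then Side.lt s τ (i + 1) else Side.st s τ) = _
    rw [if_pos hi]

/-- the side is a letter of a roof different from the first one -/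
def IsL (x : Side J S) : Prop := ∃ s τ i, x = .lt s τ (i + 1)

theorem branch (hWIN : S_WIN) (hG : A.Good) {μ lam M : ℕ} (hM : M = 3 * μ + lam + 2) (hμ : 1 ≤ μ)
    (hPF : A.PF μ) (hSh : A.Short lam) (hℓ : ∀ s, 9 * M ≤ A.ℓ s) (b : N.D) (hb : IsSt (N.ty b)) (m : Fin 9) :
    ∃ (y : N.D) (k : ℕ) (s : S) (τ : Bool), 1 ≤ k ∧ k < M ∧
      N.ty y = .lt s τ (m * M + k) ∧
      y = (N.nxt ^ (1 + (m * M + k))) b ∧ N.BR y := by
  obtain ⟨s, τ, hst⟩ : ∃ s τ, N.ty b = .st s τ := by
    cases hd : N.ty b with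
    | st s τ => exact ⟨s, τ, rfl⟩
    | uu _ _ _ => rw [hd] at hb; exact hb.elim
    | up _ _ _ => rw [hd] at hb; exact hb.elim
    | vv _ _ _ _ => rw [hd] at hb; exact hb.elim
    | dn _ _ _ => rw [hd] at hb; exact hb.elim
    | lt _ _ _ => rw [hd] at hb; exact hb.elim
  have hm : (m : ℕ) + 1 ≤ 9 := m.2
  have h9 : (m : ℕ) * M + M ≤ A.ℓ s := by
    have h1 : ((m : ℕ) + 1) * M ≤ 9 * M := Nat.mul_le_mul_right _ hm
    have h2 := hℓ s
    have h3 : ((m : ℕ) + 1) * M = (m : ℕ) * M + M := by ring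
    omega
  have hMpos : 1 ≤ M := by omega
  have hty := ty_roof N hst ((m : ℕ) * M) (by omega)
  obtain ⟨k, hk1, hk2, hBR⟩ := hWIN V J S A N hG μ lam hμ hPF hSh (fun s => by have := hℓ s; omega)
    ((N.nxt ^ (1 + (m : ℕ) * M)) b) s τ ((m : ℕ) * M) hty (by omega)
  rw [← hM] at hk2
  have hy : (N.nxt ^ k) ((N.nxt ^ (1 + (m : ℕ) * M)) b) =
      (N.nxt ^ (1 + ((m : ℕ) * M + k))) b := by
    rw [← Equiv.Perm.mul_apply, ← pow_add]
    congr 2
    ring
  refine ⟨(N.nxt ^ (1 + ((m : ℕ) * M + k))) b, k, s, τ, hk1, hk2, ?_, rfl, ?_⟩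
  · exact ty_roof N hst _ (by omega)
  · rw [← hy]
    exact hBR

end

theorem t_dis (hDEG : S_DEG) (hWIN : S_WIN) : S_DIS := by
  classical
  intro V J S A N hG μ lam hμ hPF hSh hℓ hE
  obtain ⟨M, hM⟩ : ∃ M, M = 3 * μ + lam + 2 := ⟨_, rfl⟩
  have hℓ' : ∀ s, 9 * M ≤ A.ℓ s := fun s => by rw [hM]; exact hℓ s
  obtain ⟨hD1, hD2, hD3⟩ := hDEG V J S A N hG
  have := N.finD
  have : Fintype N.D := Fintype.ofFinite _
  have : Finite N.Vtx := inferInstanceAs (Finite (Quotient (Equiv.Perm.SameCycle.setoid N.σ)))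
  have : Fintype N.Vtx := Fintype.ofFinite _
  let vt : N.D → N.Vtx := fun d => Quotient.mk (Equiv.Perm.SameCycle.setoid N.σ) d
  have hvt : ∀ a b : N.D, vt a = vt b ↔ N.σ.SameCycle a b := fun a b => Quotient.eq
  have hsurj : ∀ v : N.Vtx, ∃ d, vt d = v := fun v => Quotient.exists_rep v
  let X : Finset N.D := Finset.univ.filter (fun d => IsX (N.ty d))
  let St : Finset N.D := Finset.univ.filter (fun d => IsSt (N.ty d))
  let Bs : Finset N.D := Finset.univ.filter (fun d => IsBase (N.ty d))
  let B : Finset N.D := Finset.univ.filter (fun d => IsL (N.ty d) ∧ N.BR d)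
  have mX : ∀ d, d ∈ X ↔ IsX (N.ty d) := fun d => by simp [X]
  have mSt : ∀ d, d ∈ St ↔ IsSt (N.ty d) := fun d => by simp [St]
  have mBs : ∀ d, d ∈ Bs ↔ IsBase (N.ty d) := fun d => by simp [Bs]
  have mB : ∀ d, d ∈ B ↔ IsL (N.ty d) ∧ N.BR d := fun d => by simp [B]
  -- (1)
  have h1 : X.card + 2 * Bs.card + St.card ≤ Fintype.card N.D := by
    have cU : (Bs.image (toUp N)).card = Bs.card := Finset.card_image_of_injOn fun x hx y hy h =>
      toUp_inj N hG ((mBs x).1 hx) ((mBs y).1 hy) h
    have cD : (Bs.image N.nxt.symm).card = Bs.card :=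
      Finset.card_image_of_injective _ N.nxt.symm.injective
    have mU : ∀ d ∈ Bs.image (toUp N), IsUp (N.ty d) := by
      intro d hd
      obtain ⟨b, hb, rfl⟩ := Finset.mem_image.1 hd
      exact up_of_base N hG b ((mBs b).1 hb)
    have mD : ∀ d ∈ Bs.image N.nxt.symm, IsDn (N.ty d) := by
      intro d hd
      obtain ⟨b, hb, rfl⟩ := Finset.mem_image.1 hd
      exact dn_of_base N b ((mBs b).1 hb)
    have d1 : Disjoint X (Bs.image (toUp N)) := by
      rw [Finset.disjoint_left]
      intro d hd hd'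
      have e1 := (mX d).1 hd
      have e2 := mU d hd'
      cases h : N.ty d <;> rw [h] at e1 e2 <;> first | exact e1.elim | exact e2.elim
    have d2 : Disjoint (X ∪ Bs.image (toUp N)) (Bs.image N.nxt.symm) := by
      rw [Finset.disjoint_left]
      intro d hd hd'
      have e2 := mD d hd'
      rcases Finset.mem_union.1 hd with hd | hd
      · have e1 := (mX d).1 hd
        cases h : N.ty d <;> rw [h] at e1 e2 <;> first | exact e1.elim | exact e2.elim
      · have e1 := mU d hd
        cases h : N.ty d <;> rw [h] at e1 e2 <;> first | exact e1.elim | exact e2.elim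
    have d3 : Disjoint (X ∪ Bs.image (toUp N) ∪ Bs.image N.nxt.symm) St := by
      rw [Finset.disjoint_left]
      intro d hd hd'
      have e2 := (mSt d).1 hd'
      rcases Finset.mem_union.1 hd with hd | hd
      · rcases Finset.mem_union.1 hd with hd | hd
        · have e1 := (mX d).1 hd
          cases h : N.ty d <;> rw [h] at e1 e2 <;> first | exact e1.elim | exact e2.elim
        · have e1 := mU d hd
          cases h : N.ty d <;> rw [h] at e1 e2 <;> first | exact e1.elim | exact e2.elim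
      · have e1 := mD d hd
        cases h : N.ty d <;> rw [h] at e1 e2 <;> first | exact e1.elim | exact e2.elim
    have h2 := Finset.card_le_univ
      (X ∪ Bs.image (toUp N) ∪ Bs.image N.nxt.symm ∪ St)
    rw [Finset.card_union_of_disjoint d3, Finset.card_union_of_disjoint d2,
      Finset.card_union_of_disjoint d1, cU, cD] at h2
    omega
  have h2 : Nat.card {d : N.D // IsBase (N.ty d) ∨ IsSt (N.ty d)} ≤ Bs.card + St.card := by
    rw [Nat.card_eq_fintype_card, Fintype.card_subtype, Finset.filter_or]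
    exact Finset.card_union_le _ _
  have h3 : X.card + 4 ≤ 2 * Fintype.card N.Vtx + St.card := by
    have hE' : Nat.card N.D + 4 ≤
      2 * Nat.card N.Vtx + 2 * Nat.card {d : N.D // IsBase (N.ty d) ∨ IsSt (N.ty d)} := hE
    rw [Nat.card_eq_fintype_card, Nat.card_eq_fintype_card (α := N.Vtx)] at hE'
    omega
  -- (2)
  have h4 : 9 * St.card ≤ B.card := by
    have hbr := fun (b : {d // d ∈ St}) (m : Fin 9) =>
      branch N hWIN hG hM hμ hPF hSh hℓ' b.1 ((mSt b.1).1 b.2) m
    choose y k s τ hk1 hk2 hty hy hBR using hbr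
    have hyB : ∀ p : {d // d ∈ St} × Fin 9, y p.1 p.2 ∈ B := by
      intro p
      refine (mB _).2 ⟨?_, hBR _ _⟩
      refine ⟨s p.1 p.2, τ p.1 p.2, (p.2 : ℕ) * M + k p.1 p.2 - 1, ?_⟩
      rw [hty]
      congr 1
      have := hk1 p.1 p.2
      omega
    have hinj : Function.Injective
        (fun p : {d // d ∈ St} × Fin 9 => (⟨y p.1 p.2, hyB p⟩ : {d // d ∈ B})) := by
      rintro ⟨b, m⟩ ⟨b', m'⟩ h
      have hyy : y b m = y b' m' := congrArg Subtype.val h
      have ht := hty b m
      rw [hyy, hty b' m'] at ht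
      have hi : (m' : ℕ) * M + k b' m' = (m : ℕ) * M + k b m := by
        injection ht
      have hdm : ∀ (m k : ℕ), k < M → (m * M + k) / M = m := by
        intro m k hk
        rw [mul_comm, Nat.mul_add_div (by omega), Nat.div_eq_of_lt hk, add_zero]
      have hm : m = m' := by
        have e1 := hdm m (k b m) (hk2 b m)
        have e2 := hdm m' (k b' m') (hk2 b' m')
        rw [hi, e1] at e2
        exact Fin.ext e2
      have hbb : b = b' := by
        have e1 := hy b m
        have e2 := hy b' m'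
        rw [hi] at e2
        rw [hyy, e2] at e1
        exact Subtype.ext ((N.nxt ^ _).injective e1.symm)
      rw [hm, hbb]
    have := Fintype.card_le_of_injective _ hinj
    rw [Fintype.card_prod, Fintype.card_coe, Fintype.card_coe, Fintype.card_fin] at this
    omega
  -- (3)
  have hBX : B ⊆ X := by
    intro d hd
    obtain ⟨⟨s, τ, i, hi⟩, -⟩ := (mB d).1 hd
    rw [mX, hi]
    trivial
  have h5 : ∀ v : N.Vtx, 6 + (B.filter (fun d => vt d = v)).card ≤
      3 * (X.filter (fun d => vt d = v)).card +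
        3 * (if (X.filter (fun d => vt d = v)).card = 1 then 1 else 0) := by
    intro v
    have n1 : 1 ≤ (X.filter (fun d => vt d = v)).card := by
      obtain ⟨d, rfl⟩ := hsurj v
      obtain ⟨y, hy1, hy2⟩ := hD1 d
      rw [Nat.one_le_iff_ne_zero, Finset.card_ne_zero]
      exact ⟨y, Finset.mem_filter.2 ⟨(mX y).2 hy2, ((hvt d y).2 hy1).symm⟩⟩
    have n2 : (B.filter (fun d => vt d = v)).card ≤ (X.filter (fun d => vt d = v)).card :=
      Finset.card_le_card (Finset.filter_subset_filter _ hBX)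
    have n3 : 0 < (B.filter (fun d => vt d = v)).card →
        3 ≤ (X.filter (fun d => vt d = v)).card := by
      intro hpos
      obtain ⟨d, hd⟩ := Finset.card_pos.1 hpos
      obtain ⟨hdB, rfl⟩ := Finset.mem_filter.1 hd
      obtain ⟨⟨s, τ, i, hi⟩, y, hy1, hy2, hy3, hy4⟩ := (mB d).1 hdB
      obtain ⟨g1, g2⟩ := hD3 d s τ i hi
      have : 2 < (X.filter (fun e => vt e = vt d)).card := by
        rw [Finset.two_lt_card]
        refine ⟨d, ?_, N.σ d, ?_, y, ?_, g1.symm, hy3.symm, hy4.symm⟩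
        · exact Finset.mem_filter.2 ⟨hBX hdB, rfl⟩
        · exact Finset.mem_filter.2 ⟨(mX _).2 g2,
            (hvt _ _).2 (Equiv.Perm.sameCycle_apply_left.2 (Equiv.Perm.SameCycle.refl _ _))⟩
        · exact Finset.mem_filter.2 ⟨(mX _).2 hy1, ((hvt _ _).2 hy2).symm⟩
      exact this
    split_ifs with h
    · rcases Nat.eq_zero_or_pos (B.filter (fun d => vt d = v)).card with h0 | h0
      · omega
      · have := n3 h0
        omega
    · rcases Nat.eq_zero_or_pos (B.filter (fun d => vt d = v)).card with h0 | h0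
      · omega
      · have := n3 h0
        omega
  -- (4)
  have h6 : (Finset.univ.filter (fun v : N.Vtx => (X.filter (fun d => vt d = v)).card = 1)).card ≤
      2 * St.card := by
    have hsub : (Finset.univ.filter (fun v : N.Vtx =>
        (X.filter (fun d => vt d = v)).card = 1)) ⊆
        St.image vt ∪ St.image (fun d => vt (N.nxt d)) := by
      intro v hv
      have hv1 := (Finset.mem_filter.1 hv).2
      obtain ⟨a, ha⟩ := Finset.card_eq_one.1 hv1
      have haX : a ∈ X.filter (fun d => vt d = v) := by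
        rw [ha]
        exact Finset.mem_singleton_self a
      obtain ⟨ha1, ha2⟩ := Finset.mem_filter.1 haX
      obtain ⟨d, hd1, hd2⟩ := hD2 a ((mX a).1 ha1) (fun y hy1 hy2 => by
        have : y ∈ X.filter (fun d => vt d = v) :=
          Finset.mem_filter.2 ⟨(mX y).2 hy2, by rw [← ha2]; exact ((hvt a y).2 hy1).symm⟩
        rw [ha] at this
        exact Finset.mem_singleton.1 this)
      rw [Finset.mem_union]
      rcases hd2 with h | h
      · left
        exact Finset.mem_image.2 ⟨d, (mSt d).2 hd1, by rw [← ha2]; exact ((hvt a d).2 h).symm⟩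
      · right
        exact Finset.mem_image.2 ⟨d, (mSt d).2 hd1, by rw [← ha2]; exact ((hvt a _).2 h).symm⟩
    refine (Finset.card_le_card hsub).trans ((Finset.card_union_le _ _).trans ?_)
    have e1 := Finset.card_image_le (s := St) (f := vt)
    have e2 := Finset.card_image_le (s := St) (f := fun d => vt (N.nxt d))
    omega
  -- (5)
  have h7 := Finset.sum_le_sum (s := (Finset.univ : Finset N.Vtx)) fun v _ => h5 v
  rw [Finset.sum_add_distrib, Finset.sum_add_distrib, ← Finset.mul_sum, ← Finset.mul_sum,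
    ← Finset.card_eq_sum_card_fiberwise (fun d _ => Finset.mem_coe.2 (Finset.mem_univ (vt d))),
    ← Finset.card_eq_sum_card_fiberwise (fun d _ => Finset.mem_coe.2 (Finset.mem_univ (vt d))),
    ← Finset.card_filter, Finset.sum_const, Finset.card_univ, smul_eq_mul] at h7
  omega

end Pool.Agent.N402.WU
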